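import Pool.Graph.R_seed8.TH342.CV.Joint
import Pool.Graph.R_seed8.H370R2.DirGood
import Pool.Graph.R_seed8.H370R2.Expl1

set_option autoImplicit false

/-! Windows of the mean spacing hit by simple critical zeros, in a scaled variable. -/

open Filter Topology Complex MeasureTheory Set

namespace Pool.Agent.H149.SZ

/-- `1/2 + i x` is a simple zero of `F` -/
def Simple (F : ℂ → ℂ) (x : ℝ) : Prop :=
  F (1 / 2 + x * I) = 0 ∧ analyticOrderNatAt F (1 / 2 + x * I) = 1

/-- the open interval `(t, t + r)` contains the ordinate of a simple zero of `F` on the critical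
line -/
def Hit (F : ℂ → ℂ) (r t : ℝ) : Prop := ∃ x : ℝ, t < x ∧ x < t + r ∧ Simple F x

/-- the length of `G` mean spacings at height `T` -/
noncomputable def win (G T : ℝ) : ℝ := G * (2 * Real.pi / Real.log T)

/-- the hit points in the scaled variable `u = (t - s) / T` -/
def hs (F : ℂ → ℂ) (r T s : ℝ) : Set ℝ := {u : ℝ | Hit F r (T * u + s)}

lemma hit_open (F : ℂ → ℂ) (r : ℝ) : IsOpen {t : ℝ | Hit F r t} := by
  have := Pool.Agent.TH342.CV.hit_open F r 0
  simp only [add_zero] at this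
  exact this

lemma hs_open (F : ℂ → ℂ) (r T s : ℝ) : IsOpen (hs F r T s) :=
  (hit_open F r).preimage ((continuous_const.mul continuous_id).add continuous_const)

/-- lower density of the hit points in intervals -/
def Dense (S : Set ℝ) (p α β η : ℝ) : Prop :=
  ∀ v w : ℝ, α ≤ v → v ≤ β → η ≤ w - v → w - v ≤ α → p * (w - v) ≤ volume.real (S ∩ Ioo v w)

theorem dense_hs {ε : ℝ} (hε : 0 < ε) : ∃ G d : ℝ, 0 < G ∧ 0 < d ∧ ∀ F : ℂ → ℂ, H370.GoodL F →
    ∀ α β η : ℝ, 0 < α → 0 < η → ∃ T0 : ℝ, 10 ≤ T0 ∧ ∀ T : ℝ, T0 ≤ T → ∀ s : ℝ, 0 ≤ s →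
      s ≤ T ^ (1 + d) → Dense (hs F (win G T) T s) (2 - H370.cMTinv - ε) α β η := by
  obtain ⟨G, hG, d, hd0, hd1, h⟩ := Pool.Agent.TH342.CV.cover_shift hε
  refine ⟨2 * G, d / 2, by positivity, by positivity, fun F hF α β η hα hη => ?_⟩
  obtain ⟨T1, hT1, hT⟩ := h F hF
  have htop : Tendsto (fun T : ℝ => T ^ d) atTop atTop := tendsto_rpow_atTop hd0
  obtain ⟨T2, hT2⟩ := (htop.eventually_ge_atTop ((max β 1) ^ (1 - d) / η)).exists_forall_of_atTop
  have htop' : Tendsto (fun T : ℝ => T ^ (d / 2)) atTop atTop := tendsto_rpow_atTop (by positivity)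
  obtain ⟨T3, hT3⟩ := (htop'.eventually_ge_atTop (1 / α ^ (1 + d))).exists_forall_of_atTop
  set T0 : ℝ := max (max 10 (T1 / α)) (max (max T2 T3) (max (1 / α ^ 2) (10 / α))) with hT0
  refine ⟨T0, (le_max_left _ _).trans (le_max_left _ _),
    fun T hTT s hs0 hs1 v w hv hvβ hw hwα => ?_⟩
  have e10 : 10 ≤ T := ((le_max_left _ _).trans (le_max_left _ _)).trans hTT
  have e1 : T1 / α ≤ T := ((le_max_right _ _).trans (le_max_left _ _)).trans hTT
  have e2 : T2 ≤ T :=
    (((le_max_left _ _).trans (le_max_left _ _)).trans (le_max_right _ _)).trans hTT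
  have e2' : T3 ≤ T :=
    (((le_max_right _ _).trans (le_max_left _ _)).trans (le_max_right _ _)).trans hTT
  have e3 : 1 / α ^ 2 ≤ T :=
    (((le_max_left _ _).trans (le_max_right _ _)).trans (le_max_right _ _)).trans hTT
  have hT0' : 0 < T := by linarith
  have hv0 : 0 < v := by linarith
  have e4 : T1 ≤ v * T := by
    rw [div_le_iff₀ hα] at e1
    nlinarith
  have hvT10 : 10 ≤ v * T := hT1.trans e4
  have hlogT : 0 < Real.log T := Real.log_pos (by linarith)
  have hlogv : 0 < Real.log (v * T) := Real.log_pos (by linarith)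
  -- the exponent condition
  have e5 : (v * T) ^ (1 - d) ≤ (w - v) * T := by
    have hmax : v ≤ max β 1 := hvβ.trans (le_max_left _ _)
    have hTd := hT2 T e2
    have hTd' : (max β 1) ^ (1 - d) ≤ T ^ d * η := by
      rwa [div_le_iff₀ hη] at hTd
    calc (v * T) ^ (1 - d) = v ^ (1 - d) * T ^ (1 - d) := Real.mul_rpow hv0.le hT0'.le
      _ ≤ (max β 1) ^ (1 - d) * T ^ (1 - d) := by
          apply mul_le_mul_of_nonneg_right _ (Real.rpow_nonneg hT0'.le _)
          exact Real.rpow_le_rpow hv0.le hmax (by linarith)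
      _ ≤ T ^ d * η * T ^ (1 - d) := by
          apply mul_le_mul_of_nonneg_right hTd' (Real.rpow_nonneg hT0'.le _)
      _ = η * (T ^ d * T ^ (1 - d)) := by ring
      _ = η * T := by
          rw [← Real.rpow_add hT0']
          simp
      _ ≤ (w - v) * T := mul_le_mul_of_nonneg_right hw hT0'.le
  have e6 : (w - v) * T ≤ v * T := mul_le_mul_of_nonneg_right (hwα.trans hv) hT0'.le
  have e7 : s ≤ (v * T) ^ (1 + d) := by
    refine hs1.trans ?_
    have h1 := hT3 T e2'
    have hα' : 0 < α ^ (1 + d) := Real.rpow_pos_of_pos hα _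
    rw [div_le_iff₀ hα'] at h1
    calc T ^ (1 + d / 2) ≤ T ^ (1 + d / 2) * (T ^ (d / 2) * α ^ (1 + d)) :=
          le_mul_of_one_le_right (Real.rpow_nonneg hT0'.le _) h1
      _ = α ^ (1 + d) * (T ^ (1 + d / 2) * T ^ (d / 2)) := by ring
      _ = α ^ (1 + d) * T ^ (1 + d) := by
          rw [← Real.rpow_add hT0']
          congr 2
          ring
      _ ≤ v ^ (1 + d) * T ^ (1 + d) := by
          apply mul_le_mul_of_nonneg_right _ (Real.rpow_nonneg hT0'.le _)
          exact Real.rpow_le_rpow hα.le hv (by linarith)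
      _ = (v * T) ^ (1 + d) := (Real.mul_rpow hv0.le hT0'.le).symm
  have key := hT (v * T) e4 ((w - v) * T) e5 e6 s hs0 e7
  -- the lengths of the windows
  have hwin : G * (2 * Real.pi / Real.log (v * T)) ≤ win (2 * G) T := by
    have hlog : Real.log T / 2 ≤ Real.log (v * T) := by
      have h1 : Real.log (v * T) = Real.log v + Real.log T := Real.log_mul hv0.ne' hT0'.ne'
      have h2 : Real.log (1 / v ^ 2) ≤ Real.log T := by
        apply Real.log_le_log (by positivity)
        refine le_trans ?_ e3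
        apply one_div_le_one_div_of_le (by positivity)
        exact pow_le_pow_left₀ hα.le hv 2
      have h3 : Real.log (1 / v ^ 2) = - (2 * Real.log v) := by
        rw [one_div, Real.log_inv, Real.log_pow]
        norm_num
      rw [h3] at h2
      linarith
    have h4 : 2 * Real.pi / Real.log (v * T) ≤ 2 * Real.pi / (Real.log T / 2) :=
      div_le_div_of_nonneg_left (by positivity) (by positivity) hlog
    calc G * (2 * Real.pi / Real.log (v * T)) ≤ G * (2 * Real.pi / (Real.log T / 2)) :=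
          mul_le_mul_of_nonneg_left h4 hG.le
      _ = win (2 * G) T := by
          unfold win
          field_simp
  -- scaling
  have hsub : {t : ℝ | v * T < t ∧ t < v * T + (w - v) * T ∧ ∃ x : ℝ, t + s < x ∧
      x < t + s + G * (2 * Real.pi / Real.log (v * T)) ∧ x ≤ v * T + s + (w - v) * T ∧
      Pool.Agent.TH342.CV.SimpleAt F x} ⊆
      (fun t => T⁻¹ * t) ⁻¹' (hs F (win (2 * G) T) T s ∩ Ioo v w) := by
    rintro t ⟨h1, h2, x, h3, h4, -, h6⟩
    refine ⟨⟨x, ?_, ?_, h6⟩, ?_, ?_⟩
    · rw [← mul_assoc, mul_inv_cancel₀ hT0'.ne', one_mul]; linarith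
    · rw [← mul_assoc, mul_inv_cancel₀ hT0'.ne', one_mul]; linarith
    · rw [lt_inv_mul_iff₀ hT0']; linarith
    · rw [inv_mul_lt_iff₀ hT0']; linarith
  have key2 := key.trans (measure_mono hsub)
  rw [Real.volume_preimage_mul_left (inv_ne_zero hT0'.ne'), inv_inv, abs_of_pos hT0'] at key2
  have hfin : volume (hs F (win (2 * G) T) T s ∩ Ioo v w) ≠ ⊤ :=
    ne_top_of_le_ne_top (by rw [Real.volume_Ioo]; exact ENNReal.ofReal_ne_top)
      (measure_mono inter_subset_right)
  have key3 : (2 - H370.cMTinv - ε) * ((w - v) * T) ≤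
      T * volume.real (hs F (win (2 * G) T) T s ∩ Ioo v w) := by
    have hfin2 : ENNReal.ofReal T * volume (hs F (win (2 * G) T) T s ∩ Ioo v w) ≠ ⊤ :=
      ENNReal.mul_ne_top ENNReal.ofReal_ne_top hfin
    have e := (ENNReal.ofReal_le_iff_le_toReal hfin2).1 key2
    rwa [ENNReal.toReal_mul, ENNReal.toReal_ofReal hT0'.le] at e
  have key4 : ((2 - H370.cMTinv - ε) * (w - v)) * T ≤
      volume.real (hs F (win (2 * G) T) T s ∩ Ioo v w) * T := by linarith
  exact le_of_mul_le_mul_right key4 hT0'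

end Pool.Agent.H149.SZ
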