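import Pool.Agent.H149.SZ.A

set_option autoImplicit false

/-! Changes of variables. -/

open Filter Topology MeasureTheory Set
open scoped NNReal ENNReal

namespace Pool.Agent.H149.SZ

lemma vol_image_le {f : ℝ → ℝ} {E : Set ℝ} {L : ℝ≥0} (hf : LipschitzOnWith L f E) :
    volume (f '' E) ≤ L * volume E := by
  have h := hf.hausdorffMeasure_image_le (d := 1) zero_le_one
  rw [hausdorffMeasure_real] at h
  simpa using h

lemma vol_real_image {f : ℝ → ℝ} {E : Set ℝ} {L : ℝ≥0} {u v : ℝ} (hE : E ⊆ Ioo u v)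
    (hf : LipschitzOnWith L f E) {A : Set ℝ} (hA : A ⊆ f '' E) :
    volume.real A ≤ L * volume.real E := by
  have h1 : volume E ≠ ⊤ :=
    ne_top_of_le_ne_top (by rw [Real.volume_Ioo]; exact ENNReal.ofReal_ne_top) (measure_mono hE)
  have h2 : volume A ≤ L * volume E := (measure_mono hA).trans (vol_image_le hf)
  have h3 : (L : ℝ≥0∞) * volume E ≠ ⊤ := ENNReal.mul_ne_top ENNReal.coe_ne_top h1
  have := ENNReal.toReal_mono h3 h2
  rwa [ENNReal.toReal_mul, ENNReal.coe_toReal] at this

/-- one nearly affine piece -/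
lemma piece {S : Set ℝ} {p α β η : ℝ} (hp0 : 0 ≤ p) (hD : Dense S p α β η)
    {f : ℝ → ℝ} {u v q : ℝ} {L : ℝ≥0} (huv : u < v) (hL : 0 < L) (hη0 : 0 < η)
    (hf : LipschitzOnWith L f (Icc u v)) (hq : (1 - q) * L * (v - u) ≤ |f v - f u|)
    (hu : α ≤ f u ∧ f u ≤ β) (hv : α ≤ f v ∧ f v ≤ β)
    (hη : η ≤ (1 - q) * L * (v - u)) (hα : L * (v - u) ≤ α) :
    p * (1 - q) * (v - u) ≤ volume.real (f ⁻¹' S ∩ Ioo u v) := by
  have hcont : ContinuousOn f (Icc u v) := hf.continuousOn
  have hL' : (0 : ℝ) < L := by exact_mod_cast hL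
  have hlip : |f v - f u| ≤ L * (v - u) := by
    have := hf.dist_le_mul v (right_mem_Icc.2 huv.le) u (left_mem_Icc.2 huv.le)
    rw [Real.dist_eq, Real.dist_eq, abs_of_pos (by linarith : 0 < v - u)] at this
    exact this
  have hlipE : LipschitzOnWith L f (f ⁻¹' S ∩ Ioo u v) :=
    hf.mono (inter_subset_right.trans Ioo_subset_Icc_self)
  have key : p * |f v - f u| ≤ L * volume.real (f ⁻¹' S ∩ Ioo u v) := by
    rcases lt_trichotomy (f u) (f v) with h | h | h
    · rw [abs_of_pos (by linarith : 0 < f v - f u)] at hq hlip ⊢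
      refine (hD (f u) (f v) hu.1 hu.2 (by linarith) (by linarith)).trans ?_
      refine vol_real_image (u := u) (v := v) inter_subset_right hlipE ?_
      rintro y ⟨hyS, hy⟩
      obtain ⟨x, hx, rfl⟩ := intermediate_value_Ioo huv.le hcont hy
      exact ⟨x, ⟨hyS, hx⟩, rfl⟩
    · rw [h, sub_self, abs_zero] at hq
      linarith
    · rw [abs_of_neg (by linarith : f v - f u < 0)] at hq hlip ⊢
      have e : -(f v - f u) = f u - f v := by ring
      rw [e] at hq hlip ⊢
      refine (hD (f v) (f u) hv.1 hv.2 (by linarith) (by linarith)).trans ?_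
      refine vol_real_image (u := u) (v := v) inter_subset_right hlipE ?_
      rintro y ⟨hyS, hy⟩
      obtain ⟨x, hx, rfl⟩ := intermediate_value_Ioo' huv.le hcont hy
      exact ⟨x, ⟨hyS, hx⟩, rfl⟩
  have h1 : p * ((1 - q) * L * (v - u)) ≤ L * volume.real (f ⁻¹' S ∩ Ioo u v) :=
    (mul_le_mul_of_nonneg_left hq hp0).trans key
  have h2 : L * (p * (1 - q) * (v - u)) ≤ L * volume.real (f ⁻¹' S ∩ Ioo u v) := by
    linarith
  exact le_of_mul_le_mul_left h2 hL'

/-- sum over disjoint pieces -/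
lemma sum_pieces {E : Set ℝ} {a b c : ℝ} (hab : a < b) (K : ℕ) (hK : 0 < K)
    (hE : ∀ k < K, MeasurableSet (E ∩ Ioo (a + k * ((b - a) / K)) (a + (k + 1) * ((b - a) / K))))
    (h : ∀ k < K, c * ((b - a) / K) ≤
      volume.real (E ∩ Ioo (a + k * ((b - a) / K)) (a + (k + 1) * ((b - a) / K)))) :
    c * (b - a) ≤ volume.real (E ∩ Ioo a b) := by
  set l := (b - a) / K with hl
  have hK' : (0 : ℝ) < K := by exact_mod_cast hK
  have hl0 : 0 < l := div_pos (by linarith) hK'
  have hKl : K * l = b - a := by rw [hl]; field_simp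
  have hdisj : ((Finset.range K : Finset ℕ) : Set ℕ).PairwiseDisjoint
      (fun k : ℕ => E ∩ Ioo (a + k * l) (a + (k + 1) * l)) := by
    intro i _ j _ hij
    rw [Function.onFun, Set.disjoint_left]
    rintro x ⟨-, h1, h2⟩ ⟨-, h3, h4⟩
    rcases lt_or_gt_of_ne hij with hlt | hlt
    · have : (i : ℝ) + 1 ≤ j := by exact_mod_cast hlt
      nlinarith
    · have : (j : ℝ) + 1 ≤ i := by exact_mod_cast hlt
      nlinarith
  have hsub : (⋃ k ∈ Finset.range K, E ∩ Ioo (a + k * l) (a + (k + 1) * l)) ⊆ E ∩ Ioo a b := by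
    intro x hx
    simp only [mem_iUnion, Finset.mem_range] at hx
    obtain ⟨k, hk, hxE, h1, h2⟩ := hx
    have hk' : (k : ℝ) + 1 ≤ K := by exact_mod_cast hk
    have hk0 : (0 : ℝ) ≤ k := Nat.cast_nonneg k
    refine ⟨hxE, by nlinarith, ?_⟩
    have : (k + 1 : ℝ) * l ≤ K * l := mul_le_mul_of_nonneg_right hk' hl0.le
    linarith
  have hfin : volume (E ∩ Ioo a b) ≠ ⊤ :=
    ne_top_of_le_ne_top (by rw [Real.volume_Ioo]; exact ENNReal.ofReal_ne_top)
      (measure_mono inter_subset_right)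
  have h1 : volume.real (⋃ k ∈ Finset.range K, E ∩ Ioo (a + k * l) (a + (k + 1) * l)) ≤
      volume.real (E ∩ Ioo a b) := measureReal_mono hsub hfin
  rw [measureReal_biUnion_finset hdisj (fun k hk => hE k (Finset.mem_range.1 hk))
    (fun k _ => ne_top_of_le_ne_top (by rw [Real.volume_Ioo]; exact ENNReal.ofReal_ne_top)
      (measure_mono inter_subset_right))] at h1
  refine le_trans ?_ h1
  calc c * (b - a) = ∑ k ∈ Finset.range K, c * l := by
        rw [Finset.sum_const, Finset.card_range, nsmul_eq_mul, ← hKl]; ring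
    _ ≤ _ := Finset.sum_le_sum fun k hk => h k (Finset.mem_range.1 hk)

/-- the covering property is preserved by changes of variables -/
theorem smooth_cover {S : Set ℝ} (hS : IsOpen S) {p α β η μ M q : ℝ} (hp0 : 0 ≤ p)
    (hη0 : 0 < η) (hμ0 : 0 < μ) (hq0 : 0 < q) (hq1 : q < 1)
    (hD : Dense S p α β η) {f f' : ℝ → ℝ} {a b : ℝ} (hab : a < b) (K : ℕ) (hK : 0 < K)
    (hder : ∀ s ∈ Icc a b, HasDerivAt f (f' s) s) (hμ : ∀ s ∈ Icc a b, μ ≤ |f' s|)
    (hM : ∀ s ∈ Icc a b, |f' s| ≤ M)
    (hosc : ∀ s ∈ Icc a b, ∀ t ∈ Icc a b, |s - t| ≤ (b - a) / K → |f' s - f' t| ≤ q * μ / 2)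
    (hrange : ∀ s ∈ Icc a b, α ≤ f s ∧ f s ≤ β)
    (hη : η ≤ (1 - q) * μ * ((b - a) / K)) (hα : 2 * M * ((b - a) / K) ≤ α) :
    p * (1 - q) * (b - a) ≤ volume.real (f ⁻¹' S ∩ Ioo a b) := by
  set l := (b - a) / K with hl
  have hK' : (0 : ℝ) < K := by exact_mod_cast hK
  have hl0 : 0 < l := div_pos (by linarith) hK'
  have hKl : K * l = b - a := by rw [hl]; field_simp
  have hsub : ∀ k : ℕ, k < K → Icc (a + k * l) (a + (k + 1) * l) ⊆ Icc a b := by
    intro k hk x hx
    have hk' : (k : ℝ) + 1 ≤ K := by exact_mod_cast hk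
    have hk0 : (0 : ℝ) ≤ k := Nat.cast_nonneg k
    refine ⟨by nlinarith [hx.1], ?_⟩
    have : (k + 1 : ℝ) * l ≤ K * l := mul_le_mul_of_nonneg_right hk' hl0.le
    linarith [hx.2]
  have hcont : ContinuousOn f (Icc a b) := fun s hs => (hder s hs).continuousAt.continuousWithinAt
  have hlt : ∀ k : ℕ, a + (k : ℝ) * l < a + (k + 1) * l := fun k => by nlinarith
  refine sum_pieces hab K hK ?_ ?_
  · intro k hk
    have h1 : IsOpen (Ioo (a + k * l) (a + (k + 1) * l) ∩ f ⁻¹' S) :=
      (hcont.mono (Ioo_subset_Icc_self.trans (hsub k hk))).isOpen_inter_preimage isOpen_Ioo hS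
    rw [inter_comm]
    exact h1.measurableSet
  · intro k hk
    set u := a + (k : ℝ) * l with hu
    set v := a + ((k : ℝ) + 1) * l with hv
    have huv : u < v := hlt k
    have hvu : v - u = l := by rw [hu, hv]; ring
    have hum : u ∈ Icc a b := hsub k hk (left_mem_Icc.2 huv.le)
    have hvm : v ∈ Icc a b := hsub k hk (right_mem_Icc.2 huv.le)
    have hLpos : 0 < |f' u| + q * μ / 2 := by positivity
    set L : ℝ≥0 := ⟨|f' u| + q * μ / 2, hLpos.le⟩ with hL
    have hLc : (L : ℝ) = |f' u| + q * μ / 2 := rfl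
    have hosc' : ∀ s ∈ Icc u v, |f' s - f' u| ≤ q * μ / 2 := by
      intro s hs
      refine hosc s (hsub k hk hs) u hum ?_
      rw [abs_of_nonneg (by linarith [hs.1])]
      linarith [hs.2]
    have hlip : LipschitzOnWith L f (Icc u v) := by
      refine (convex_Icc u v).lipschitzOnWith_of_nnnorm_hasDerivWithin_le (f' := f') ?_ ?_
      · intro s hs
        exact (hder s (hsub k hk hs)).hasDerivWithinAt
      · intro s hs
        rw [← NNReal.coe_le_coe, coe_nnnorm, Real.norm_eq_abs, hLc]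
        have h1 := hosc' s hs
        have h2 : |f' s| ≤ |f' s - f' u| + |f' u| := by
          have := abs_add_le (f' s - f' u) (f' u)
          simpa using this
        linarith
    have hmvt : (1 - q) * L * (v - u) ≤ |f v - f u| := by
      obtain ⟨c, hc, hc'⟩ := exists_hasDerivAt_eq_slope f f' huv
        (hcont.mono (hsub k hk)) (fun x hx => hder x (hsub k hk (Ioo_subset_Icc_self hx)))
      have e1 : f v - f u = f' c * (v - u) := by
        rw [hc', div_mul_cancel₀ _ (sub_pos.2 huv).ne']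
      rw [e1, abs_mul, abs_of_pos (by linarith : 0 < v - u)]
      refine mul_le_mul_of_nonneg_right ?_ (by linarith)
      rw [hLc]
      have h1 := hosc' c (Ioo_subset_Icc_self hc)
      have h2 : |f' u| ≤ |f' c - f' u| + |f' c| := by
        have := abs_sub_abs_le_abs_sub (f' u) (f' c)
        rw [abs_sub_comm] at this
        linarith
      have h3 := mul_le_mul_of_nonneg_left (hμ u hum) hq0.le
      have h4 : 0 < q * q * μ := by positivity
      have h5 : (1 - q) * (|f' u| + q * μ / 2) =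
        |f' u| - q * |f' u| + q * μ / 2 - q * q * μ / 2 := by ring
      rw [h5]
      linarith
    have hMu := hM u hum
    have hμu := hμ u hum
    have h2 := piece hp0 hD (q := q) huv (by exact_mod_cast hLpos) hη0 hlip hmvt (hrange u hum) (hrange v hvm)
      ?_ ?_
    · rw [hvu] at h2
      exact h2
    · rw [hvu, hLc]
      refine hη.trans ?_
      have h4 : (1 - q) * μ ≤ (1 - q) * (|f' u| + q * μ / 2) := by
        apply mul_le_mul_of_nonneg_left _ (by linarith)
        have : 0 < q * μ / 2 := by positivity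
        linarith
      exact mul_le_mul_of_nonneg_right h4 hl0.le
    · rw [hvu, hLc]
      refine le_trans ?_ hα
      apply mul_le_mul_of_nonneg_right _ hl0.le
      nlinarith

end Pool.Agent.H149.SZ
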