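import Pool.Agent.H149.SZ.B

set_option autoImplicit false

/-! Separated sets and the choice of the variables one after the other. -/

open Filter Topology MeasureTheory Set

namespace Pool.Agent.H149.SZ

theorem exists_sep {E : Set ℝ} {δ κ : ℝ} (hδ : 0 < δ) (hκ : κ ≤ volume.real E) (M : ℕ)
    (hM : 2 * δ * M < κ + 2 * δ) : ∃ X : Finset ℝ, X.card = M ∧ (∀ x ∈ X, x ∈ E) ∧
      ∀ x ∈ X, ∀ y ∈ X, x ≠ y → δ < |x - y| := by
  induction M with
  | zero => exact ⟨∅, rfl, by simp, by simp⟩
  | succ M ih =>
    push_cast at hM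
    have hM' : 2 * δ * M < κ := by linarith
    obtain ⟨X, hX, hXE, hXs⟩ := ih (by linarith)
    have hex : ∃ z ∈ E, ∀ x ∈ X, δ < |x - z| := by
      by_contra hcon
      push Not at hcon
      have hsub : E ⊆ ⋃ x ∈ X, Icc (x - δ) (x + δ) := by
        intro z hz
        obtain ⟨x, hx, hxz⟩ := hcon z hz
        rw [abs_le] at hxz
        simp only [mem_iUnion]
        exact ⟨x, hx, by linarith [hxz.2], by linarith [hxz.1]⟩
      have h1 : volume (⋃ x ∈ X, Icc (x - δ) (x + δ)) ≤ ENNReal.ofReal (2 * δ * M) := by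
        refine (measure_biUnion_finset_le X _).trans ?_
        have : ∀ x ∈ X, volume (Icc (x - δ) (x + δ)) = ENNReal.ofReal (2 * δ) := by
          intro x _
          rw [Real.volume_Icc]
          congr 1
          ring
        rw [Finset.sum_congr rfl this, Finset.sum_const, hX, nsmul_eq_mul,
          ← ENNReal.ofReal_natCast, ← ENNReal.ofReal_mul (Nat.cast_nonneg M)]
        exact le_of_eq (by congr 1; ring)
      have h2 : volume E ≤ ENNReal.ofReal (2 * δ * M) := (measure_mono hsub).trans h1
      have h3 := ENNReal.toReal_mono ENNReal.ofReal_ne_top h2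
      rw [ENNReal.toReal_ofReal (by positivity)] at h3
      have h4 : volume.real E ≤ 2 * δ * M := h3
      linarith
    obtain ⟨z, hz, hzX⟩ := hex
    have hzX' : z ∉ X := fun h => by
      have := hzX z h
      rw [sub_self, abs_zero] at this
      linarith
    refine ⟨insert z X, ?_, ?_, ?_⟩
    · rw [Finset.card_insert_of_notMem hzX', hX]
    · intro x hx
      rcases Finset.mem_insert.1 hx with rfl | hx
      · exact hz
      · exact hXE x hx
    · intro x hx y hy hxy
      rcases Finset.mem_insert.1 hx with hx' | hx' <;> rcases Finset.mem_insert.1 hy with hy' | hy'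
      · exact absurd (hx'.trans hy'.symm) hxy
      · rw [abs_sub_comm, hx']; exact hzX y hy'
      · rw [hy']; exact hzX x hx'
      · exact hXs x hx' y hy' hxy

theorem tree {m : ℕ} {a b : Fin m → ℝ} (hab : a ≤ b) {M : ℕ} {δ : ℝ} (hδ : 0 < δ)
    (P : Fin m → (Fin m → ℝ) → Prop)
    (hP : ∀ n, ∀ x ∈ Icc a b, ∀ y ∈ Icc a b, (∀ j ≤ n, x j = y j) → P n x → P n y)
    (H : ∀ n, ∀ x ∈ Icc a b, ∃ X : Finset ℝ, X.card = M ∧
      (∀ s ∈ X, s ∈ Icc (a n) (b n) ∧ P n (Function.update x n s)) ∧
      ∀ s ∈ X, ∀ t ∈ X, s ≠ t → δ < |s - t|) :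
    ∃ S : Finset (Fin m → ℝ), S.card = M ^ m ∧ (∀ x ∈ S, x ∈ Icc a b ∧ ∀ n, P n x) ∧
      ∀ x ∈ S, ∀ y ∈ S, x ≠ y → ∃ n, (∀ j < n, x j = y j) ∧ δ < |x n - y n| := by
  classical
  have key : ∀ k : ℕ, k ≤ m → ∃ S : Finset (Fin m → ℝ), S.card = M ^ k ∧
      (∀ x ∈ S, x ∈ Icc a b ∧ ∀ n : Fin m, (n : ℕ) < k → P n x) ∧
      ∀ x ∈ S, ∀ y ∈ S, x ≠ y → ∃ n : Fin m, (n : ℕ) < k ∧ (∀ j < n, x j = y j) ∧
        δ < |x n - y n| := by
    intro k
    induction k with
    | zero =>
      intro _
      refine ⟨{a}, by simp, ?_, ?_⟩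
      · intro x hx
        rw [Finset.mem_singleton.1 hx]
        exact ⟨⟨le_rfl, hab⟩, fun n hn => absurd hn (Nat.not_lt_zero _)⟩
      · intro x hx y hy hxy
        rw [Finset.mem_singleton.1 hx, Finset.mem_singleton.1 hy] at hxy
        exact absurd rfl hxy
    | succ k ih =>
      intro hk
      obtain ⟨S, hS, hSP, hSs⟩ := ih (by omega)
      set n : Fin m := ⟨k, by omega⟩ with hn
      have hn' : (n : ℕ) = k := rfl
      have hupd : ∀ x ∈ Icc a b, ∀ s ∈ Icc (a n) (b n), Function.update x n s ∈ Icc a b := by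
        intro x hx s hs
        constructor
        · intro j
          by_cases hj : j = n
          · subst hj; rw [Function.update_self]; exact hs.1
          · rw [Function.update_of_ne hj]; exact hx.1 j
        · intro j
          by_cases hj : j = n
          · subst hj; rw [Function.update_self]; exact hs.2
          · rw [Function.update_of_ne hj]; exact hx.2 j
      choose! X hX hXP hXs using fun x (hx : x ∈ S) => H n x (hSP x hx).1
      refine ⟨S.biUnion fun x => (X x).image fun s => Function.update x n s, ?_, ?_, ?_⟩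
      · rw [Finset.card_biUnion]
        · have : ∀ x ∈ S, ((X x).image fun s => Function.update x n s).card = M := by
            intro x hx
            rw [Finset.card_image_of_injective _ (Function.update_injective x n), hX x hx]
          rw [Finset.sum_congr rfl this, Finset.sum_const, hS, smul_eq_mul, pow_succ]
        · intro x hx y hy hxy
          rw [Function.onFun, Finset.disjoint_left]
          intro z hz1 hz2
          obtain ⟨s, hs, rfl⟩ := Finset.mem_image.1 hz1
          obtain ⟨t, ht, hst⟩ := Finset.mem_image.1 hz2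
          obtain ⟨j, hjk, hj, hjδ⟩ := hSs x hx y hy hxy
          have hjn : j ≠ n := fun h => by rw [h, hn'] at hjk; omega
          have := congrFun hst j
          rw [Function.update_of_ne hjn, Function.update_of_ne hjn] at this
          rw [this, sub_self, abs_zero] at hjδ
          linarith
      · intro z hz
        obtain ⟨x, hx, hz⟩ := Finset.mem_biUnion.1 hz
        obtain ⟨s, hs, rfl⟩ := Finset.mem_image.1 hz
        have hbox := hupd x (hSP x hx).1 s (hXP x hx s hs).1
        refine ⟨hbox, fun l hl => ?_⟩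
        by_cases hln : l = n
        · subst hln; exact (hXP x hx s hs).2
        · have hlk : (l : ℕ) < k := by
            have : (l : ℕ) ≠ k := fun h => hln (Fin.ext h)
            omega
          refine hP l x (hSP x hx).1 _ hbox ?_ ((hSP x hx).2 l hlk)
          intro j hj
          have hjn : j ≠ n := by
            rintro rfl
            have := Fin.le_def.1 hj
            omega
          rw [Function.update_of_ne hjn]
      · intro z hz w hw hzw
        obtain ⟨x, hx, hz⟩ := Finset.mem_biUnion.1 hz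
        obtain ⟨s, hs, rfl⟩ := Finset.mem_image.1 hz
        obtain ⟨y, hy, hw⟩ := Finset.mem_biUnion.1 hw
        obtain ⟨t, ht, rfl⟩ := Finset.mem_image.1 hw
        by_cases hxy : x = y
        · subst hxy
          have hst : s ≠ t := fun h => hzw (by rw [h])
          refine ⟨n, by omega, ?_, ?_⟩
          · intro j hj
            rw [Function.update_of_ne hj.ne, Function.update_of_ne hj.ne]
          · rw [Function.update_self, Function.update_self]
            exact hXs x hx s hs t ht hst
        · obtain ⟨j, hjk, hj, hjδ⟩ := hSs x hx y hy hxy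
          refine ⟨j, by omega, ?_, ?_⟩
          · intro l hl
            have hln : l ≠ n := by
              rintro rfl
              have := Fin.lt_def.1 hl
              omega
            rw [Function.update_of_ne hln, Function.update_of_ne hln]
            exact hj l hl
          · have hjn : j ≠ n := fun h => by rw [h, hn'] at hjk; omega
            rw [Function.update_of_ne hjn, Function.update_of_ne hjn]
            exact hjδ
  obtain ⟨S, h1, h2, h3⟩ := key m le_rfl
  refine ⟨S, h1, fun x hx => ⟨(h2 x hx).1, fun n => (h2 x hx).2 n n.2⟩, fun x hx y hy hxy => ?_⟩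
  obtain ⟨n, -, hn⟩ := h3 x hx y hy hxy
  exact ⟨n, hn⟩

/-- union bound for at most three sets -/
theorem inter_three {ι : Type*} (I : Finset ι) (hI : I.card ≤ 3) {a b c : ℝ} (hab : a < b)
    (E : ι → Set ℝ) (hE : ∀ i ∈ I, MeasurableSet (E i ∩ Ioo a b))
    (h : ∀ i ∈ I, c * (b - a) ≤ volume.real (E i ∩ Ioo a b)) (hc : c ≤ 1) :
    (1 - 3 * (1 - c)) * (b - a) ≤ volume.real ({s | ∀ i ∈ I, s ∈ E i} ∩ Ioo a b) := by
  classical
  set A : Set ℝ := {s | ∀ i ∈ I, s ∈ E i} ∩ Ioo a b with hA
  have hfin : ∀ B : Set ℝ, B ⊆ Ioo a b → volume B ≠ ⊤ := fun B hB =>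
    ne_top_of_le_ne_top (by rw [Real.volume_Ioo]; exact ENNReal.ofReal_ne_top) (measure_mono hB)
  have hsub : Ioo a b ⊆ A ∪ ⋃ i ∈ I, (Ioo a b \ (E i ∩ Ioo a b)) := by
    intro s hs
    by_cases hsA : ∀ i ∈ I, s ∈ E i
    · exact Or.inl ⟨hsA, hs⟩
    · push Not at hsA
      obtain ⟨i, hi, hsi⟩ := hsA
      right
      simp only [mem_iUnion]
      exact ⟨i, hi, hs, fun h => hsi h.1⟩
  have hIoo : volume.real (Ioo a b) = b - a := by
    rw [Measure.real, Real.volume_Ioo, ENNReal.toReal_ofReal (by linarith)]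
  have hU : volume (A ∪ ⋃ i ∈ I, (Ioo a b \ (E i ∩ Ioo a b))) ≠ ⊤ := by
    refine hfin _ (union_subset inter_subset_right ?_)
    intro s hs
    simp only [mem_iUnion] at hs
    obtain ⟨i, hi, hs, -⟩ := hs
    exact hs
  have h1 : b - a ≤ volume.real A + ∑ i ∈ I, volume.real (Ioo a b \ (E i ∩ Ioo a b)) := by
    rw [← hIoo]
    refine (measureReal_mono hsub hU).trans ((measureReal_union_le _ _).trans ?_)
    gcongr
    exact measureReal_biUnion_finset_le I _
  have h2 : ∀ i ∈ I, volume.real (Ioo a b \ (E i ∩ Ioo a b)) ≤ (1 - c) * (b - a) := by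
    intro i hi
    rw [measureReal_sdiff inter_subset_right (hE i hi) (hfin _ subset_rfl), hIoo]
    linarith [h i hi]
  have h3 : ∑ i ∈ I, volume.real (Ioo a b \ (E i ∩ Ioo a b)) ≤ 3 * ((1 - c) * (b - a)) := by
    refine (Finset.sum_le_sum h2).trans ?_
    rw [Finset.sum_const, nsmul_eq_mul]
    apply mul_le_mul_of_nonneg_right
    · exact_mod_cast hI
    · exact mul_nonneg (by linarith) (by linarith)
  linarith

lemma exists_pos_le_all {r : ℕ} (f : Fin r → ℝ) (hf : ∀ i, 0 < f i) : ∃ c : ℝ, 0 < c ∧
    ∀ i, c ≤ f i := by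
  induction r with
  | zero => exact ⟨1, one_pos, fun i => i.elim0⟩
  | succ r ih =>
    obtain ⟨c, hc, h⟩ := ih (fun i => f i.castSucc) (fun i => hf _)
    refine ⟨min c (f (Fin.last r)), lt_min hc (hf _), fun i => ?_⟩
    induction i using Fin.lastCases with
    | last => exact min_le_right _ _
    | cast i => exact (min_le_left _ _).trans (h i)

lemma exists_ge_all {r : ℕ} (f : Fin r → ℝ) : ∃ c : ℝ, 0 < c ∧ ∀ i, f i ≤ c := by
  induction r with
  | zero => exact ⟨1, one_pos, fun i => i.elim0⟩
  | succ r ih =>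
    obtain ⟨c, hc, h⟩ := ih (fun i => f i.castSucc)
    refine ⟨max c (f (Fin.last r)), lt_of_lt_of_le hc (le_max_left _ _), fun i => ?_⟩
    induction i using Fin.lastCases with
    | last => exact le_max_right _ _
    | cast i => exact (h i).trans (le_max_left _ _)

end Pool.Agent.H149.SZ
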