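import Pool.Agent.H149.SZ.C

set_option autoImplicit false

/-! The main theorem for good functions. -/

open Filter Topology MeasureTheory Set

namespace Pool.Agent.H149.SZ

/-- the data of a triangular system on a box -/
structure Sys (m r : ℕ) where
  lam : Fin r → Fin m
  a : Fin m → ℝ
  b : Fin m → ℝ
  hab : ∀ j, a j < b j
  U : Set (Fin m → ℝ)
  hU : IsOpen U
  hbox : Icc a b ⊆ U
  psi : Fin r → (Fin m → ℝ) → ℝ
  smooth : ∀ i, ContDiffOn ℝ 1 (psi i) U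
  pos : ∀ i, ∀ x ∈ Icc a b, 0 < psi i x
  dep : ∀ i, ∀ x ∈ Icc a b, ∀ y ∈ Icc a b, (∀ j ≤ lam i, x j = y j) → psi i x = psi i y
  nondeg : ∀ i, ∀ x ∈ Icc a b, fderiv ℝ (psi i) x (Pi.single (lam i) 1) ≠ 0

namespace Sys

variable {m r : ℕ} (Y : Sys m r)

/-- the partial derivative in the last variable -/
noncomputable def D (i : Fin r) (x : Fin m → ℝ) : ℝ :=
  fderiv ℝ (Y.psi i) x (Pi.single (Y.lam i) 1)

lemma D_cont (i : Fin r) : ContinuousOn (Y.D i) Y.U := by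
  have h := (Y.smooth i).continuousOn_fderiv_of_isOpen Y.hU le_rfl
  exact h.clm_apply continuousOn_const

lemma upd_mem {x : Fin m → ℝ} (hx : x ∈ Icc Y.a Y.b) {n : Fin m} {s : ℝ}
    (hs : s ∈ Icc (Y.a n) (Y.b n)) : Function.update x n s ∈ Icc Y.a Y.b := by
  constructor
  · intro j
    by_cases hj : j = n
    · subst hj; rw [Function.update_self]; exact hs.1
    · rw [Function.update_of_ne hj]; exact hx.1 j
  · intro j
    by_cases hj : j = n
    · subst hj; rw [Function.update_self]; exact hs.2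
    · rw [Function.update_of_ne hj]; exact hx.2 j

lemma hasDeriv (i : Fin r) {x : Fin m → ℝ} (hx : x ∈ Icc Y.a Y.b) {s : ℝ}
    (hs : s ∈ Icc (Y.a (Y.lam i)) (Y.b (Y.lam i))) :
    HasDerivAt (fun s => Y.psi i (Function.update x (Y.lam i) s))
      (Y.D i (Function.update x (Y.lam i) s)) s := by
  have hmem : Function.update x (Y.lam i) s ∈ Y.U := Y.hbox (Y.upd_mem hx hs)
  have h1 : DifferentiableAt ℝ (Y.psi i) (Function.update x (Y.lam i) s) :=
    ((Y.smooth i).differentiableOn one_ne_zero).differentiableAt (Y.hU.mem_nhds hmem)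
  have h2 := hasDerivAt_update x (Y.lam i) s
  exact h1.hasFDerivAt.comp_hasDerivAt s h2

/-- the constants of the system -/
theorem consts {q : ℝ} (hq : 0 < q) : ∃ μ M ρ α β : ℝ, 0 < μ ∧ 0 < M ∧ 0 < ρ ∧ 0 < α ∧ 0 < β ∧
    (∀ i, ∀ x ∈ Icc Y.a Y.b, μ ≤ |Y.D i x|) ∧ (∀ i, ∀ x ∈ Icc Y.a Y.b, |Y.D i x| ≤ M) ∧
    (∀ i, ∀ x ∈ Icc Y.a Y.b, ∀ y ∈ Icc Y.a Y.b, dist x y < ρ →
      |Y.D i x - Y.D i y| ≤ q * μ / 2) ∧
    (∀ i, ∀ x ∈ Icc Y.a Y.b, α ≤ Y.psi i x ∧ Y.psi i x ≤ β) := by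
  have hcomp : IsCompact (Icc Y.a Y.b) := isCompact_Icc
  have hne : (Icc Y.a Y.b).Nonempty := ⟨Y.a, le_rfl, fun j => (Y.hab j).le⟩
  have hDc : ∀ i, ContinuousOn (Y.D i) (Icc Y.a Y.b) := fun i => (Y.D_cont i).mono Y.hbox
  have hψc : ∀ i, ContinuousOn (Y.psi i) (Icc Y.a Y.b) := fun i =>
    (Y.smooth i).continuousOn.mono Y.hbox
  have h1 : ∀ i, ∃ c : ℝ, 0 < c ∧ ∀ x ∈ Icc Y.a Y.b, c ≤ |Y.D i x| := by
    intro i
    obtain ⟨x0, hx0, h⟩ := hcomp.exists_isMinOn hne (hDc i).abs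
    exact ⟨_, abs_pos.2 (Y.nondeg i x0 hx0), fun x hx => h hx⟩
  choose μi hμi0 hμi using h1
  obtain ⟨μ, hμ0, hμ⟩ := exists_pos_le_all μi hμi0
  have h2 : ∀ i, ∃ c : ℝ, ∀ x ∈ Icc Y.a Y.b, |Y.D i x| ≤ c := by
    intro i
    obtain ⟨x0, hx0, h⟩ := hcomp.exists_isMaxOn hne (hDc i).abs
    exact ⟨_, fun x hx => h hx⟩
  choose Mi hMi using h2
  obtain ⟨M, hM0, hM⟩ := exists_ge_all Mi
  have h3 : ∀ i, ∃ c : ℝ, 0 < c ∧ ∀ x ∈ Icc Y.a Y.b, c ≤ Y.psi i x := by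
    intro i
    obtain ⟨x0, hx0, h⟩ := hcomp.exists_isMinOn hne (hψc i)
    exact ⟨_, Y.pos i x0 hx0, fun x hx => h hx⟩
  choose αi hαi0 hαi using h3
  obtain ⟨α, hα0, hα⟩ := exists_pos_le_all αi hαi0
  have h4 : ∀ i, ∃ c : ℝ, ∀ x ∈ Icc Y.a Y.b, Y.psi i x ≤ c := by
    intro i
    obtain ⟨x0, hx0, h⟩ := hcomp.exists_isMaxOn hne (hψc i)
    exact ⟨_, fun x hx => h hx⟩
  choose βi hβi using h4
  obtain ⟨β, hβ0, hβ⟩ := exists_ge_all βi
  have h5 : ∀ i, ∃ ρ : ℝ, 0 < ρ ∧ ∀ x ∈ Icc Y.a Y.b, ∀ y ∈ Icc Y.a Y.b, dist x y < ρ →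
      |Y.D i x - Y.D i y| ≤ q * μ / 2 := by
    intro i
    have hu := hcomp.uniformContinuousOn_of_continuous (hDc i)
    rw [Metric.uniformContinuousOn_iff] at hu
    obtain ⟨ρ, hρ, h⟩ := hu (q * μ / 2) (by positivity)
    refine ⟨ρ, hρ, fun x hx y hy hxy => ?_⟩
    have := h x hx y hy hxy
    rw [Real.dist_eq] at this
    exact this.le
  choose ρi hρi0 hρi using h5
  obtain ⟨ρ, hρ0, hρ⟩ := exists_pos_le_all ρi hρi0
  exact ⟨μ, M, ρ, α, β, hμ0, hM0, hρ0, hα0, hβ0, fun i x hx => (hμ i).trans (hμi i x hx),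
    fun i x hx => (hMi i x hx).trans (hM i), fun i x hx y hy hxy =>
      hρi i x hx y hy (lt_of_lt_of_le hxy (hρ i)),
    fun i x hx => ⟨(hα i).trans (hαi i x hx), (hβi i x hx).trans (hβ i)⟩⟩

lemma dist_upd (x : Fin m → ℝ) (n : Fin m) (s t : ℝ) :
    dist (Function.update x n s) (Function.update x n t) ≤ |s - t| := by
  rw [dist_pi_le_iff (abs_nonneg _)]
  intro j
  by_cases hj : j = n
  · subst hj
    rw [Function.update_self, Function.update_self, Real.dist_eq]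
  · rw [Function.update_of_ne hj, Function.update_of_ne hj, dist_self]
    exact abs_nonneg _

/-- change of a variable moves the functions -/
lemma sep_psi {μ : ℝ} (hμ : ∀ i, ∀ x ∈ Icc Y.a Y.b, μ ≤ |Y.D i x|) (i : Fin r)
    {x y : Fin m → ℝ} (hx : x ∈ Icc Y.a Y.b) (hy : y ∈ Icc Y.a Y.b)
    (hxy : ∀ j < Y.lam i, x j = y j) :
    μ * |x (Y.lam i) - y (Y.lam i)| ≤ |Y.psi i x - Y.psi i y| := by
  set n := Y.lam i with hn
  have hyn : y n ∈ Icc (Y.a n) (Y.b n) := ⟨hy.1 n, hy.2 n⟩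
  have hxn : x n ∈ Icc (Y.a n) (Y.b n) := ⟨hx.1 n, hx.2 n⟩
  have e1 : Y.psi i y = Y.psi i (Function.update x n (y n)) := by
    refine Y.dep i y hy _ (Y.upd_mem hx hyn) fun j hj => ?_
    rcases eq_or_lt_of_le hj with h | h
    · rw [h, ← hn, Function.update_self]
    · have hjn : j ≠ n := ne_of_lt h
      rw [Function.update_of_ne hjn]
      exact (hxy j h).symm
  have e2 : Y.psi i x = Y.psi i (Function.update x n (x n)) := by
    rw [Function.update_eq_self]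
  rw [e1, e2]
  rcases lt_trichotomy (x n) (y n) with h | h | h
  · obtain ⟨c, hc, hc'⟩ := exists_hasDerivAt_eq_slope
      (fun s => Y.psi i (Function.update x n s)) (fun s => Y.D i (Function.update x n s)) h
      (fun s hs => (Y.hasDeriv i hx ⟨hxn.1.trans hs.1, hs.2.trans hyn.2⟩).continuousAt.continuousWithinAt)
      (fun s hs => Y.hasDeriv i hx ⟨hxn.1.trans hs.1.le, hs.2.le.trans hyn.2⟩)
    have hμc := hμ i (Function.update x n c) (Y.upd_mem hx ⟨hxn.1.trans hc.1.le, hc.2.le.trans hyn.2⟩)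
    have e3 : Y.psi i (Function.update x n (y n)) - Y.psi i (Function.update x n (x n)) =
        Y.D i (Function.update x n c) * (y n - x n) := by
      rw [hc', div_mul_cancel₀ _ (sub_pos.2 h).ne']
    rw [abs_sub_comm (Y.psi i _), e3, abs_mul, abs_sub_comm (x n)]
    exact mul_le_mul_of_nonneg_right hμc (abs_nonneg _)
  · rw [h, sub_self, abs_zero, mul_zero]
    exact abs_nonneg _
  · obtain ⟨c, hc, hc'⟩ := exists_hasDerivAt_eq_slope
      (fun s => Y.psi i (Function.update x n s)) (fun s => Y.D i (Function.update x n s)) h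
      (fun s hs => (Y.hasDeriv i hx ⟨hyn.1.trans hs.1, hs.2.trans hxn.2⟩).continuousAt.continuousWithinAt)
      (fun s hs => Y.hasDeriv i hx ⟨hyn.1.trans hs.1.le, hs.2.le.trans hxn.2⟩)
    have hμc := hμ i (Function.update x n c) (Y.upd_mem hx ⟨hyn.1.trans hc.1.le, hc.2.le.trans hxn.2⟩)
    have e3 : Y.psi i (Function.update x n (x n)) - Y.psi i (Function.update x n (y n)) =
        Y.D i (Function.update x n c) * (x n - y n) := by
      rw [hc', div_mul_cancel₀ _ (sub_pos.2 h).ne']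
    rw [e3, abs_mul]
    exact mul_le_mul_of_nonneg_right hμc (abs_nonneg _)

end Sys

end Pool.Agent.H149.SZ
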