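import Pool.Agent.H149.SZ.D

set_option autoImplicit false

/-! The main theorem for good functions. -/

open Filter Topology MeasureTheory Set Complex

namespace Pool.Agent.H149.SZ

lemma simple_finite {F : ℂ → ℂ} (hF : H370.GoodL F) (B : ℝ) :
    {x : ℝ | 1 < x ∧ x ≤ B ∧ Simple F x}.Finite := by
  refine ((H370.zset_finite hF 1 B le_rfl).image Complex.im).subset ?_
  rintro x ⟨h1, h2, h3, -⟩
  refine ⟨1 / 2 + x * I, ⟨?_, ?_, ?_, ?_, h3⟩, ?_⟩
  · simp
  · simp; norm_num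
  · simpa using h1
  · simpa using h2
  · simp

/-- the tuples of simple critical zeros near the dilated and shifted system -/
def tuples {m r : ℕ} (F : Fin r → ℂ → ℂ) (a b : Fin m → ℝ) (psi : Fin r → (Fin m → ℝ) → ℝ)
    (s : Fin r → ℝ) (C T : ℝ) : Set (Fin r → ℝ) :=
  {γ : Fin r → ℝ | (∀ i, Simple (F i) (γ i)) ∧
    ∃ x ∈ Icc a b, ∀ i, |γ i - (T * psi i x + s i)| ≤ C / Real.log T}

theorem main : ∃ d : ℝ, 0 < d ∧ ∀ {m r : ℕ} (Y : Sys m r) (_ : ∀ j, ∃ i, Y.lam i = j)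
    (_ : ∀ j, (Finset.univ.filter (fun i => Y.lam i = j)).card ≤ 3) (F : Fin r → ℂ → ℂ)
    (_ : ∀ i, H370.GoodL (F i)), ∃ C c T₀ : ℝ, 0 < c ∧ ∀ T : ℝ, T₀ ≤ T → ∀ s : Fin r → ℝ,
      (∀ i, 0 ≤ s i ∧ s i ≤ T ^ (1 + d)) →
      (tuples F Y.a Y.b Y.psi s C T).Finite ∧
      (c * (T * Real.log T)) ^ m ≤ (tuples F Y.a Y.b Y.psi s C T).ncard := by
  classical
  obtain ⟨G, d, hG, hd0, hd⟩ := dense_hs (ε := 0.001) (by norm_num)
  refine ⟨d, hd0, fun {m r} Y h1 h3 F hF => ?_⟩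
  have hcM := H370.Expl.cMTinv_num
  have hcM1 := H370.cMTinv_gt_one
  set p' : ℝ := 2 - H370.cMTinv - 0.001 with hp'
  have hp0 : (0.671497 : ℝ) ≤ p' := by rw [hp']; norm_num at hcM ⊢; linarith
  have hp1 : p' ≤ 1 := by rw [hp']; norm_num; linarith
  obtain ⟨μ, M, ρ, α, β, hμ0, hM0, hρ0, hα0, hβ0, hμ, hM, hρ, hαβ⟩ := Y.consts (q := 0.001)
    (by norm_num)
  obtain ⟨lmin, hlmin0, hlmin⟩ := exists_pos_le_all (fun j => Y.b j - Y.a j)
    (fun j => sub_pos.2 (Y.hab j))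
  obtain ⟨lmax, hlmax0, hlmax⟩ := exists_ge_all (fun j => Y.b j - Y.a j)
  -- the number of pieces
  obtain ⟨K, hK⟩ := exists_nat_gt (max (lmax / ρ) (2 * M * lmax / α))
  have hK1 : lmax / ρ < K := (le_max_left _ _).trans_lt hK
  have hK2 : 2 * M * lmax / α < K := (le_max_right _ _).trans_lt hK
  have hK0' : (0 : ℝ) < K := lt_trans (by positivity) hK1
  have hK0 : 0 < K := by exact_mod_cast hK0'
  set η : ℝ := (1 - 0.001) * μ * (lmin / K) with hη
  have hη0 : 0 < η := by rw [hη]; norm_num; positivity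
  choose T1 hT1 hT using fun i => hd (F i) (hF i) α β η hα0 hη0
  obtain ⟨T2, hT20, hT2⟩ := exists_ge_all T1
  set C : ℝ := G * (2 * Real.pi) with hC
  have hC0 : 0 < C := by rw [hC]; positivity
  set κ : ℝ := 0.01 * lmin with hκ
  have hκ0 : 0 < κ := by rw [hκ]; positivity
  set c : ℝ := κ * μ / (2 * C) with hc
  have hc0 : 0 < c := by rw [hc]; positivity
  refine ⟨C, c, max (max 10 T2) ((C + 2) / α), hc0, fun T hTT s₀ hs₀ => ?_⟩
  have hT10 : 10 ≤ T := ((le_max_left _ _).trans (le_max_left _ _)).trans hTT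
  have hTT2 : T2 ≤ T := ((le_max_right _ _).trans (le_max_left _ _)).trans hTT
  have hTT3 : (C + 2) / α ≤ T := (le_max_right _ _).trans hTT
  have hT0 : 0 < T := by linarith
  have hlog1 : 1 ≤ Real.log T := by
    rw [Real.le_log_iff_exp_le hT0]
    have := Real.exp_one_lt_d9
    linarith
  have hlog : 0 < Real.log T := by linarith
  set W : ℝ := win G T with hW
  have hWC : W = C / Real.log T := by rw [hW, hC]; unfold win; ring
  have hW0 : 0 < W := by rw [hWC]; positivity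
  have hWC' : W ≤ C := by rw [hWC]; exact div_le_self hC0.le hlog1
  -- finiteness
  have hfin : (tuples F Y.a Y.b Y.psi s₀ C T).Finite := by
    refine (Set.Finite.pi' (fun i : Fin r => simple_finite (hF i) (T * β + s₀ i + C))).subset ?_
    rintro γ ⟨hγ, x, hx, h⟩ i
    have h4 := abs_le.1 (h i)
    rw [← hWC] at h4
    have h5 := hαβ i x hx
    have h6 : T * α ≤ T * Y.psi i x := mul_le_mul_of_nonneg_left h5.1 hT0.le
    have h7 : T * Y.psi i x ≤ T * β := mul_le_mul_of_nonneg_left h5.2 hT0.le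
    have h8 : C + 2 ≤ T * α := by rwa [div_le_iff₀ hα0] at hTT3
    exact ⟨by linarith [h4.1, (hs₀ i).1], by linarith [h4.2], hγ i⟩
  refine ⟨hfin, ?_⟩
  set δ : ℝ := W / (μ * T) with hδ
  have hδ0 : 0 < δ := by rw [hδ]; positivity
  set N : ℕ := ⌈κ / (2 * δ)⌉₊ with hN
  have hN1 : 2 * δ * N < κ + 2 * δ := by
    have := Nat.ceil_lt_add_one (show 0 ≤ κ / (2 * δ) by positivity)
    rw [← hN] at this
    have h4 : 2 * δ * N < 2 * δ * (κ / (2 * δ) + 1) := mul_lt_mul_of_pos_left this (by positivity)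
    have h5 : 2 * δ * (κ / (2 * δ) + 1) = κ + 2 * δ := by field_simp
    linarith
  have hN2 : c * (T * Real.log T) ≤ N := by
    refine le_trans (le_of_eq ?_) (Nat.le_ceil _)
    rw [hδ, hWC, hc]
    field_simp
  have hab' : Y.a ≤ Y.b := fun j => (Y.hab j).le
  -- the properties
  set P : Fin m → (Fin m → ℝ) → Prop := fun n x => ∀ i, Y.lam i = n → Hit (F i) W (T * Y.psi i x + s₀ i)
    with hP
  have hPdep : ∀ n, ∀ x ∈ Icc Y.a Y.b, ∀ y ∈ Icc Y.a Y.b, (∀ j ≤ n, x j = y j) → P n x → P n y := by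
    intro n x hx y hy hxy hPx i hi
    rw [← Y.dep i x hx y hy (by rw [hi]; exact hxy)]
    exact hPx i hi
  have hH : ∀ n, ∀ x ∈ Icc Y.a Y.b, ∃ X : Finset ℝ, X.card = N ∧
      (∀ s ∈ X, s ∈ Icc (Y.a n) (Y.b n) ∧ P n (Function.update x n s)) ∧
      ∀ s ∈ X, ∀ t ∈ X, s ≠ t → δ < |s - t| := by
    intro n x hx
    set E : Fin r → Set ℝ := fun i =>
      (fun s => Y.psi i (Function.update x n s)) ⁻¹' (hs (F i) W T (s₀ i)) with hE
    set I : Finset (Fin r) := Finset.univ.filter (fun i => Y.lam i = n) with hI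
    have hln : lmin ≤ Y.b n - Y.a n := hlmin n
    have hlx : Y.b n - Y.a n ≤ lmax := hlmax n
    have hder : ∀ i ∈ I, ∀ s ∈ Icc (Y.a n) (Y.b n),
        HasDerivAt (fun s => Y.psi i (Function.update x n s)) (Y.D i (Function.update x n s)) s := by
      intro i hi s hs
      have : Y.lam i = n := (Finset.mem_filter.1 hi).2
      subst this
      exact Y.hasDeriv i hx hs
    have hcov : ∀ i ∈ I, p' * (1 - 0.001) * (Y.b n - Y.a n) ≤
        volume.real (E i ∩ Ioo (Y.a n) (Y.b n)) := by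
      intro i hi
      refine smooth_cover (hs_open (F i) W T (s₀ i)) (by linarith) hη0 hμ0 (q := 0.001) (by norm_num)
        (by norm_num) (hT i T ((hT2 i).trans hTT2) (s₀ i) (hs₀ i).1 (hs₀ i).2) (Y.hab n) K hK0 (hder i hi)
        (M := M) ?_ ?_ ?_ ?_ ?_ ?_
      · intro s hs
        exact hμ i _ (Y.upd_mem hx hs)
      · intro s hs
        exact hM i _ (Y.upd_mem hx hs)
      · intro s hs t ht hst
        refine hρ i _ (Y.upd_mem hx hs) _ (Y.upd_mem hx ht) ?_
        refine lt_of_le_of_lt (Sys.dist_upd x n s t) (lt_of_le_of_lt hst ?_)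
        rw [div_lt_iff₀ hK0']
        rw [div_lt_iff₀ hρ0] at hK1
        linarith
      · intro s hs
        exact hαβ i _ (Y.upd_mem hx hs)
      · rw [hη]
        have : lmin / K ≤ (Y.b n - Y.a n) / K := div_le_div_of_nonneg_right hln hK0'.le
        exact mul_le_mul_of_nonneg_left this (by norm_num; positivity)
      · rw [div_lt_iff₀ hα0] at hK2
        have h4 : 2 * M * (Y.b n - Y.a n) ≤ α * K := by
          have : 2 * M * (Y.b n - Y.a n) ≤ 2 * M * lmax := mul_le_mul_of_nonneg_left hlx (by positivity)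
          linarith
        rw [← mul_div_assoc, div_le_iff₀ hK0']
        exact h4
    have hmeas : ∀ i ∈ I, MeasurableSet (E i ∩ Ioo (Y.a n) (Y.b n)) := by
      intro i hi
      have hcont : ContinuousOn (fun s => Y.psi i (Function.update x n s)) (Ioo (Y.a n) (Y.b n)) :=
        fun s hs => (hder i hi s (Ioo_subset_Icc_self hs)).continuousAt.continuousWithinAt
      rw [inter_comm]
      exact (hcont.isOpen_inter_preimage isOpen_Ioo (hs_open (F i) W T (s₀ i))).measurableSet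
    have hcp : (0.67 : ℝ) ≤ p' * (1 - 0.001) := by
      have : (0.671497 : ℝ) * (1 - 0.001) ≤ p' * (1 - 0.001) :=
        mul_le_mul_of_nonneg_right hp0 (by norm_num)
      refine le_trans (by norm_num) this
    have hthree := inter_three I (h3 n) (Y.hab n) E hmeas
      (c := 0.67) (fun i hi => le_trans (mul_le_mul_of_nonneg_right hcp
        (sub_nonneg.2 (Y.hab n).le)) (hcov i hi)) (by norm_num)
    have hκ' : κ ≤ volume.real ({s | ∀ i ∈ I, s ∈ E i} ∩ Ioo (Y.a n) (Y.b n)) := by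
      refine le_trans ?_ hthree
      rw [hκ]
      have : (1 - 3 * (1 - 0.67) : ℝ) = 0.01 := by norm_num
      rw [this]
      exact mul_le_mul_of_nonneg_left hln (by norm_num)
    obtain ⟨X, hX1, hX2, hX3⟩ := exists_sep hδ0 hκ' N hN1
    refine ⟨X, hX1, fun s hs => ?_, hX3⟩
    obtain ⟨hs1, hs2⟩ := hX2 s hs
    refine ⟨Ioo_subset_Icc_self hs2, fun i hi => ?_⟩
    exact hs1 i (Finset.mem_filter.2 ⟨Finset.mem_univ i, hi⟩)
  obtain ⟨S, hS1, hS2, hS3⟩ := tree hab' hδ0 P hPdep hH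
  -- the tuples
  have hchoice : ∀ x ∈ S, ∃ γ : Fin r → ℝ, ∀ i, T * Y.psi i x + s₀ i < γ i ∧
      γ i < T * Y.psi i x + s₀ i + W ∧ Simple (F i) (γ i) := by
    intro x hx
    choose γ hγ using fun i => (hS2 x hx).2 (Y.lam i) i rfl
    exact ⟨γ, hγ⟩
  choose! Γ hΓ using hchoice
  have hinj : Set.InjOn Γ (S : Set (Fin m → ℝ)) := by
    intro x hx y hy hxy
    by_contra hne
    obtain ⟨n, hn1, hn2⟩ := hS3 x hx y hy hne
    obtain ⟨i, hi⟩ := h1 n
    have hx' := hΓ x hx i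
    have hy' := hΓ y hy i
    rw [← hxy] at hy'
    have h4 : |T * Y.psi i x - T * Y.psi i y| < W := by
      rw [abs_lt]; constructor <;> linarith [hx'.1, hx'.2.1, hy'.1, hy'.2.1]
    have h5 := Y.sep_psi hμ i (hS2 x hx).1 (hS2 y hy).1 (by rw [hi]; exact hn1)
    rw [hi] at h5
    have h6 : μ * δ < μ * |x n - y n| := mul_lt_mul_of_pos_left hn2 hμ0
    have h7 : |T * Y.psi i x - T * Y.psi i y| = T * |Y.psi i x - Y.psi i y| := by
      rw [← mul_sub, abs_mul, abs_of_pos hT0]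
    have h8 : T * (μ * δ) = W := by rw [hδ]; field_simp
    have h9 : T * (μ * δ) < T * |Y.psi i x - Y.psi i y| :=
      mul_lt_mul_of_pos_left (lt_of_lt_of_le h6 h5) hT0
    linarith
  have hsub : ((S.image Γ : Finset (Fin r → ℝ)) : Set (Fin r → ℝ)) ⊆
      tuples F Y.a Y.b Y.psi s₀ C T := by
    intro γ hγ
    obtain ⟨x, hx, rfl⟩ := Finset.mem_image.1 (Finset.mem_coe.1 hγ)
    refine ⟨fun i => (hΓ x hx i).2.2, x, (hS2 x hx).1, fun i => ?_⟩
    rw [← hWC, abs_le]
    constructor <;> linarith [(hΓ x hx i).1, (hΓ x hx i).2.1]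
  have hcard := Set.ncard_le_ncard hsub hfin
  rw [Set.ncard_coe_finset, Finset.card_image_of_injOn hinj, hS1] at hcard
  have h4 : (c * (T * Real.log T)) ^ m ≤ (N : ℝ) ^ m := pow_le_pow_left₀ (by positivity) hN2 m
  refine h4.trans ?_
  exact_mod_cast hcard

end Pool.Agent.H149.SZ
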