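import Pool.Agent.H149.SZ.E

set_option autoImplicit false

/-! At most two smooth equations. -/

open Filter Topology MeasureTheory Set Complex

namespace Pool.Agent.H149.SZ

/-- a `k × (k + 1)` matrix all of whose maximal minors are nonzero: no nonzero relation between the
columns has a zero coefficient -/
lemma ker_zero {k : ℕ} (cols : Fin (k + 1) → Fin k → ℝ)
    (hdet : ∀ q : Fin (k + 1), (Matrix.of fun p p' => cols (q.succAbove p') p).det ≠ 0)
    (u : Fin (k + 1) → ℝ) (hu : ∑ q, u q • cols q = 0) (q : Fin (k + 1)) (hq : u q = 0) : u = 0 := by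
  rw [Fin.sum_univ_succAbove _ q, hq, zero_smul, zero_add] at hu
  have h1 : (Matrix.of fun p p' => cols (q.succAbove p') p).mulVec
      (fun p' => u (q.succAbove p')) = 0 := by
    ext p
    have := congrFun hu p
    simp only [Finset.sum_apply, Pi.smul_apply, smul_eq_mul, Pi.zero_apply] at this
    simp only [Matrix.mulVec, dotProduct, Matrix.of_apply, Pi.zero_apply]
    rw [← this]
    exact Finset.sum_congr rfl fun p' _ => mul_comm _ _
  have h2 := Matrix.eq_zero_of_mulVec_eq_zero (hdet q) h1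
  ext l
  by_cases h : l = q
  · rw [h, hq]; rfl
  · obtain ⟨p', rfl⟩ := Fin.exists_succAbove_eq h
    exact congrFun h2 p'

section

variable {m k r : ℕ} (e : Fin r ≃ Fin m ⊕ Fin k)

/-- the linear parametrization -/
noncomputable def wmap : ((Fin m → ℝ) × (Fin k → ℝ)) →L[ℝ] (Fin r → ℝ) :=
  ContinuousLinearMap.pi fun l =>
    Sum.elim (fun t => (ContinuousLinearMap.proj t).comp (ContinuousLinearMap.fst ℝ _ _))
      (fun q => (ContinuousLinearMap.proj q).comp (ContinuousLinearMap.snd ℝ _ _)) (e l)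

lemma wmap_inl (x : Fin m → ℝ) (y : Fin k → ℝ) {l : Fin r} {t : Fin m} (h : e l = Sum.inl t) :
    wmap e (x, y) l = x t := by
  simp [wmap, h]

lemma wmap_inr (x : Fin m → ℝ) (y : Fin k → ℝ) {l : Fin r} {q : Fin k} (h : e l = Sum.inr q) :
    wmap e (x, y) l = y q := by
  simp [wmap, h]

lemma wmap_eq (x : Fin m → ℝ) (y : Fin k → ℝ) :
    wmap e (x, y) = ∑ t, x t • (Pi.single (e.symm (Sum.inl t)) 1 : Fin r → ℝ) +
      ∑ q, y q • (Pi.single (e.symm (Sum.inr q)) 1 : Fin r → ℝ) := by
  classical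
  ext l
  simp only [Pi.add_apply, Finset.sum_apply, Pi.smul_apply, smul_eq_mul, Pi.single_apply]
  obtain ⟨t, ht⟩ | ⟨q, hq⟩ : (∃ t, e l = Sum.inl t) ∨ ∃ q, e l = Sum.inr q := by
    rcases h : e l with t | q
    · exact Or.inl ⟨t, rfl⟩
    · exact Or.inr ⟨q, rfl⟩
  · rw [wmap_inl e x y ht]
    have h1 : ∀ t', (l = e.symm (Sum.inl t')) ↔ t' = t := by
      intro t'
      rw [Equiv.eq_symm_apply, ht]
      constructor
      · intro h; exact (Sum.inl.inj h).symm
      · rintro rfl; rfl
    have h2 : ∀ q, ¬ (l = e.symm (Sum.inr q)) := by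
      intro q h
      rw [Equiv.eq_symm_apply, ht] at h
      exact Sum.inl_ne_inr h
    simp only [h1, h2, if_false, mul_zero, Finset.sum_const_zero, add_zero, mul_ite, mul_one,
      Finset.sum_ite_eq', Finset.mem_univ, if_true]
  · rw [wmap_inr e x y hq]
    have h1 : ∀ q', (l = e.symm (Sum.inr q')) ↔ q' = q := by
      intro q'
      rw [Equiv.eq_symm_apply, hq]
      constructor
      · intro h; exact (Sum.inr.inj h).symm
      · rintro rfl; rfl
    have h2 : ∀ t, ¬ (l = e.symm (Sum.inl t)) := by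
      intro t h
      rw [Equiv.eq_symm_apply, hq] at h
      exact Sum.inr_ne_inl h
    simp only [h1, h2, if_false, mul_zero, Finset.sum_const_zero, zero_add, mul_ite, mul_one,
      Finset.sum_ite_eq', Finset.mem_univ, if_true]

end

lemma exists_e {n k : ℕ} (σ : Fin (k + 1) → Fin (n + 1 + k)) (hσ : Function.Injective σ) :
    ∃ e : Fin (n + 1 + k) ≃ Fin (n + 1) ⊕ Fin k, e (σ (Fin.last k)) = Sum.inl (Fin.last n) ∧
      ∀ q : Fin k, e (σ q.castSucc) = Sum.inr q := by
  classical
  -- the prescribed values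
  set f : Fin (k + 1) → Fin (n + 1) ⊕ Fin k :=
    Fin.lastCases (Sum.inl (Fin.last n)) (fun q => Sum.inr q) with hf
  have hfl : f (Fin.last k) = Sum.inl (Fin.last n) := by simp [hf]
  have hfc : ∀ q : Fin k, f q.castSucc = Sum.inr q := fun q => by simp [hf]
  have hfinj : Function.Injective f := by
    intro a b hab
    induction a using Fin.lastCases with
    | last =>
      induction b using Fin.lastCases with
      | last => rfl
      | cast b => rw [hfl, hfc] at hab; exact absurd hab Sum.inl_ne_inr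
    | cast a =>
      induction b using Fin.lastCases with
      | last => rw [hfl, hfc] at hab; exact absurd hab Sum.inr_ne_inl
      | cast b => rw [hfc, hfc] at hab; rw [Sum.inr.inj hab]
  set S : Finset (Fin (n + 1 + k)) := Finset.univ.image σ with hS
  set g : Fin (n + 1 + k) → Fin (n + 1) ⊕ Fin k := fun l => f (Function.invFun σ l) with hg
  have hgσ : ∀ a, g (σ a) = f a := fun a => by
    simp only [hg]
    rw [Function.leftInverse_invFun hσ a]
  obtain ⟨e, he⟩ := Finset.exists_equiv_extend_of_card_eq (α := Fin (n + 1 + k))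
    (β := Fin (n + 1) ⊕ Fin k) (t := Finset.univ) (by simp) (s := S) (f := g)
    (Finset.subset_univ _) (by
      intro x hx y hy hxy
      obtain ⟨a, -, rfl⟩ := Finset.mem_image.1 (Finset.mem_coe.1 hx)
      obtain ⟨b, -, rfl⟩ := Finset.mem_image.1 (Finset.mem_coe.1 hy)
      rw [hgσ, hgσ] at hxy
      rw [hfinj hxy])
  have hmem : ∀ a, σ a ∈ S := fun a => Finset.mem_image_of_mem _ (Finset.mem_univ a)
  refine ⟨e.trans (Equiv.subtypeUnivEquiv (fun x => Finset.mem_univ x)), ?_, fun q => ?_⟩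
  · have := he _ (hmem (Fin.last k))
    rw [hgσ, hfl] at this
    exact this
  · have := he _ (hmem q.castSucc)
    rw [hgσ, hfc] at this
    exact this

/-- the system of solved equations -/
theorem solved {n k : ℕ} (hk : k ≤ 2) (Φ : (Fin (n + 1 + k) → ℝ) → (Fin k → ℝ))
    (z : Fin (n + 1 + k) → ℝ) (hz : ∀ l, 0 < z l)
    (hΦ : ContDiffAt ℝ 1 Φ z) (hΦz : Φ z = 0) (σ : Fin (k + 1) → Fin (n + 1 + k))
    (hσ : Function.Injective σ)
    (hdet : ∀ q : Fin (k + 1), (Matrix.of fun p p' =>
      fderiv ℝ Φ z (Pi.single (σ (q.succAbove p')) 1) p).det ≠ 0)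
    (ε : ℝ) (hε : 0 < ε) :
    ∃ Y : Sys (n + 1) (n + 1 + k), (∀ k, ∃ l, Y.lam l = k) ∧
      (∀ k, (Finset.univ.filter (fun l => Y.lam l = k)).card ≤ 3) ∧
      ∀ x ∈ Icc Y.a Y.b, (∀ l, |Y.psi l x - z l| ≤ ε) ∧ Φ (fun l => Y.psi l x) = 0 := by
  classical
  obtain ⟨e, hel, hec⟩ := exists_e σ hσ
  set w := wmap e with hw
  set x0 : Fin (n + 1) → ℝ := fun t => z (e.symm (Sum.inl t)) with hx0
  set y0 : Fin k → ℝ := fun q => z (e.symm (Sum.inr q)) with hy0
  have hwl : ∀ (x : Fin (n + 1) → ℝ) (y : Fin k → ℝ) (t : Fin (n + 1)),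
      w (x, y) (e.symm (Sum.inl t)) = x t := fun x y t => wmap_inl e x y (e.apply_symm_apply _)
  have hwr : ∀ (x : Fin (n + 1) → ℝ) (y : Fin k → ℝ) (q : Fin k),
      w (x, y) (e.symm (Sum.inr q)) = y q := fun x y q => wmap_inr e x y (e.apply_symm_apply _)
  have hcase : ∀ l, (∃ t, l = e.symm (Sum.inl t)) ∨ ∃ q, l = e.symm (Sum.inr q) := by
    intro l
    rcases h : e l with t | q
    · exact Or.inl ⟨t, by rw [← h, e.symm_apply_apply]⟩
    · exact Or.inr ⟨q, by rw [← h, e.symm_apply_apply]⟩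
  have hwz : w (x0, y0) = z := by
    ext l
    rcases hcase l with ⟨t, rfl⟩ | ⟨q, rfl⟩
    · rw [hwl]
    · rw [hwr]
  set f : (Fin (n + 1) → ℝ) × (Fin k → ℝ) → (Fin k → ℝ) := fun u => Φ (w u) with hf
  have hfc : ContDiffAt ℝ 1 f (x0, y0) := by
    have h1 : ContDiffAt ℝ 1 Φ (w (x0, y0)) := by rw [hwz]; exact hΦ
    exact h1.comp _ w.contDiff.contDiffAt
  have hfd : fderiv ℝ f (x0, y0) = (fderiv ℝ Φ z).comp w := by
    have h1 : DifferentiableAt ℝ Φ (w (x0, y0)) := by rw [hwz]; exact hΦ.differentiableAt one_ne_zero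
    have h2 : HasFDerivAt f ((fderiv ℝ Φ (w (x0, y0))).comp w) (x0, y0) :=
      h1.hasFDerivAt.comp _ w.hasFDerivAt
    rw [hwz] at h2
    exact h2.fderiv
  -- linear algebra
  set cols : Fin (k + 1) → Fin k → ℝ := fun q => fderiv ℝ Φ z (Pi.single (σ q) 1) with hcols
  have hker : ∀ (s : ℝ) (v : Fin k → ℝ),
      (fderiv ℝ Φ z) (w (s • Pi.single (Fin.last n) 1, v)) = 0 →
      ∀ q, (Fin.snoc v s : Fin (k + 1) → ℝ) q = 0 → (Fin.snoc v s : Fin (k + 1) → ℝ) = 0 := by
    intro s v h q hq
    refine ker_zero cols hdet _ ?_ q hq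
    rw [Fin.sum_univ_castSucc]
    simp only [Fin.snoc_castSucc, Fin.snoc_last, hcols]
    rw [← h, hw, wmap_eq, map_add, map_sum, map_sum]
    rw [add_comm]
    congr 1
    · rw [Finset.sum_eq_single (Fin.last n)]
      · rw [map_smul]
        simp only [Pi.smul_apply, Pi.single_eq_same, smul_eq_mul, mul_one]
        rw [← hel, e.symm_apply_apply]
      · intro t _ ht
        simp [Pi.single_eq_of_ne ht]
      · intro h'
        exact absurd (Finset.mem_univ _) h'
    · refine Finset.sum_congr rfl fun q _ => ?_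
      rw [map_smul, ← hec, e.symm_apply_apply]
  have hinj : Function.Injective (fderiv ℝ f (x0, y0) ∘L .inr ℝ (Fin (n + 1) → ℝ) (Fin k → ℝ)) := by
    rw [injective_iff_map_eq_zero]
    intro v hv
    simp only [ContinuousLinearMap.comp_apply, ContinuousLinearMap.inr_apply, hfd] at hv
    have h1 : (fderiv ℝ Φ z) (w ((0 : ℝ) • Pi.single (Fin.last n) 1, v)) = 0 := by
      rw [zero_smul]; exact hv
    have h2 := hker 0 v h1 (Fin.last k) (Fin.snoc_last _ _)
    ext q
    have := congrFun h2 q.castSucc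
    rw [Fin.snoc_castSucc] at this
    exact this
  have hinr : (fderiv ℝ f (x0, y0) ∘L .inr ℝ (Fin (n + 1) → ℝ) (Fin k → ℝ)).IsInvertible := by
    refine ⟨(LinearEquiv.ofInjectiveEndo
      ((fderiv ℝ f (x0, y0) ∘L .inr ℝ (Fin (n + 1) → ℝ) (Fin k → ℝ) :
        (Fin k → ℝ) →L[ℝ] (Fin k → ℝ)) : (Fin k → ℝ) →ₗ[ℝ] (Fin k → ℝ)) hinj).toContinuousLinearEquiv, ?_⟩
    ext v
    rfl
  set g := hfc.implicitFunction one_ne_zero hinr with hg
  have hg0 : g x0 = y0 := hfc.implicitFunction_apply_self one_ne_zero hinr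
  have hgc : ContDiffAt ℝ 1 g x0 := hfc.contDiffAt_implicitFunction one_ne_zero hinr
  have hgf : ∀ᶠ x in 𝓝 x0, f (x, g x) = f (x0, y0) :=
    hfc.eventually_apply_implicitFunction one_ne_zero hinr
  have hf0 : f (x0, y0) = 0 := by rw [hf]; simp only [hwz, hΦz]
  -- the derivative of g in the last variable
  have hgl : ∀ q, fderiv ℝ g x0 (Pi.single (Fin.last n) 1) q ≠ 0 := by
    intro q hzero
    have h1 : HasFDerivAt (fun x => f (x, g x))
        ((fderiv ℝ f (x0, y0)).comp ((ContinuousLinearMap.id ℝ _).prod (fderiv ℝ g x0))) x0 := by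
      have h2 : HasFDerivAt (fun x => (x, g x)) ((ContinuousLinearMap.id ℝ _).prod (fderiv ℝ g x0)) x0 :=
        (hasFDerivAt_id x0).prodMk (hgc.differentiableAt one_ne_zero).hasFDerivAt
      have h3 : HasFDerivAt f (fderiv ℝ f (x0, y0)) (x0, g x0) := by
        rw [hg0]; exact (hfc.differentiableAt one_ne_zero).hasFDerivAt
      exact h3.comp x0 h2
    have h4 : HasFDerivAt (fun x => f (x, g x)) (0 : (Fin (n + 1) → ℝ) →L[ℝ] (Fin k → ℝ)) x0 :=
      (hasFDerivAt_const (f (x0, y0)) x0).congr_of_eventuallyEq hgf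
    have h5 := h1.unique h4
    have h6 := congrArg (fun L => L (Pi.single (Fin.last n) 1)) h5
    simp only [ContinuousLinearMap.comp_apply, ContinuousLinearMap.prod_apply,
      ContinuousLinearMap.id_apply, zero_apply, hfd] at h6
    have h7 : (fderiv ℝ Φ z) (w ((1 : ℝ) • Pi.single (Fin.last n) 1,
        fderiv ℝ g x0 (Pi.single (Fin.last n) 1))) = 0 := by
      rw [one_smul]; exact h6
    have h8 := hker 1 _ h7 q.castSucc (by rw [Fin.snoc_castSucc]; exact hzero)
    have h9 := congrFun h8 (Fin.last k)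
    rw [Fin.snoc_last] at h9
    exact one_ne_zero h9
  -- a small box
  have e1 : ∀ᶠ x in 𝓝 x0, ContDiffAt ℝ 1 g x := hgc.eventually (by simp)
  have e2 : ∀ᶠ x in 𝓝 x0, ∀ q, fderiv ℝ g x (Pi.single (Fin.last n) 1) q ≠ 0 := by
    rw [eventually_all]
    intro q
    have h1 : ContinuousAt (fun x => fderiv ℝ g x (Pi.single (Fin.last n) 1) q) x0 := by
      have h2 : ContinuousAt (fun x => fderiv ℝ g x (Pi.single (Fin.last n) 1)) x0 :=
        (hgc.continuousAt_fderiv one_ne_zero).clm_apply continuousAt_const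
      exact (continuous_apply q).continuousAt.comp h2
    exact h1.eventually_ne (hgl q)
  have hgq : ∀ q, ContinuousAt (fun x => g x q) x0 := fun q =>
    (continuous_apply q).continuousAt.comp hgc.continuousAt
  have e3 : ∀ᶠ x in 𝓝 x0, ∀ q, 0 < g x q ∧ |g x q - y0 q| < ε := by
    rw [eventually_all]
    intro q
    refine ((hgq q).eventually_const_lt (show 0 < g x0 q by rw [hg0]; exact hz _)).and ?_
    have h1 : ContinuousAt (fun x => |g x q - y0 q|) x0 := ((hgq q).sub continuousAt_const).abs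
    refine h1.eventually_lt_const ?_
    show |g x0 q - y0 q| < ε
    rw [hg0, sub_self, abs_zero]; exact hε
  have e5 : ∀ᶠ x in 𝓝 x0, ∀ t, 0 < x t ∧ |x t - x0 t| < ε := by
    rw [eventually_all]
    intro t
    have ht : ContinuousAt (fun x : Fin (n + 1) → ℝ => x t) x0 := (continuous_apply t).continuousAt
    refine (ht.eventually_const_lt (hz _)).and ?_
    have h1 : ContinuousAt (fun x : Fin (n + 1) → ℝ => |x t - x0 t|) x0 :=
      (ht.sub continuousAt_const).abs
    refine h1.eventually_lt_const ?_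
    simpa using hε
  obtain ⟨ρ, hρ, hball⟩ := Metric.eventually_nhds_iff_ball.1
    (e1.and (e2.and (e3.and (e5.and hgf))))
  set a : Fin (n + 1) → ℝ := fun t => x0 t - ρ / 2 with ha
  set b : Fin (n + 1) → ℝ := fun t => x0 t + ρ / 2 with hb
  have hbox : Icc a b ⊆ Metric.ball x0 ρ := by
    intro x hx
    have hd : dist x x0 ≤ ρ / 2 := by
      rw [dist_pi_le_iff (by positivity)]
      intro t
      rw [Real.dist_eq, abs_le]
      have h1 := hx.1 t
      have h2 := hx.2 t
      simp only [ha, hb] at h1 h2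
      constructor <;> linarith
    rw [Metric.mem_ball]
    linarith
  refine ⟨{
    lam := fun l => Sum.elim (fun t => t) (fun _ => Fin.last n) (e l)
    a := a
    b := b
    hab := fun k => by simp only [ha, hb]; linarith
    U := Metric.ball x0 ρ
    hU := Metric.isOpen_ball
    hbox := hbox
    psi := fun l x => w (x, g x) l
    smooth := ?_
    pos := ?_
    dep := ?_
    nondeg := ?_ }, ?_, ?_, ?_⟩
  · intro l x hx
    have hgx : ContDiffAt ℝ 1 g x := (hball x hx).1
    have h1 : ContDiffAt ℝ 1 (fun x => w (x, g x)) x :=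
      w.contDiff.contDiffAt.comp x (contDiffAt_id.prodMk hgx)
    exact ((contDiffAt_pi.1 h1) l).contDiffWithinAt
  · intro l x hx
    have hb' := hball x (hbox hx)
    rcases hcase l with ⟨t, rfl⟩ | ⟨q, rfl⟩
    · rw [hwl]
      exact (hb'.2.2.2.1 _).1
    · rw [hwr]
      exact (hb'.2.2.1 _).1
  · intro l x hx y hy hxy
    rcases hcase l with ⟨t, rfl⟩ | ⟨q, rfl⟩
    · rw [hwl, hwl]
      refine hxy _ ?_
      rw [e.apply_symm_apply]
      exact le_rfl
    · have : x = y := by
        funext k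
        refine hxy k ?_
        rw [e.apply_symm_apply]
        exact Fin.le_last k
      rw [this]
  · intro l x hx
    have hb' := hball x (hbox hx)
    have hgd : DifferentiableAt ℝ g x := hb'.1.differentiableAt one_ne_zero
    rcases hcase l with ⟨t, rfl⟩ | ⟨q, rfl⟩
    · have : (fun x => w (x, g x) (e.symm (Sum.inl t))) = fun x => x t := by
        funext x
        rw [hwl]
      rw [this, (hasFDerivAt_apply t x).fderiv, e.apply_symm_apply]
      simp
    · have : (fun x => w (x, g x) (e.symm (Sum.inr q))) = fun x => g x q := by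
        funext x
        rw [hwr]
      rw [this, e.apply_symm_apply]
      have h1 : HasFDerivAt (fun x => g x q)
          ((ContinuousLinearMap.proj q : (Fin k → ℝ) →L[ℝ] ℝ).comp (fderiv ℝ g x)) x :=
        (ContinuousLinearMap.proj q : (Fin k → ℝ) →L[ℝ] ℝ).hasFDerivAt.comp x hgd.hasFDerivAt
      rw [h1.fderiv]
      exact hb'.2.1 q
  · intro t
    refine ⟨e.symm (Sum.inl t), ?_⟩
    simp
  · intro t
    have hsub : Finset.univ.filter (fun l => Sum.elim (fun t => t) (fun _ => Fin.last n) (e l) = t) ⊆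
        insert (e.symm (Sum.inl t)) (Finset.univ.image fun q => e.symm (Sum.inr q)) := by
      intro l hl
      have hl' := (Finset.mem_filter.1 hl).2
      rcases hcase l with ⟨t', rfl⟩ | ⟨q, rfl⟩
      · rw [e.apply_symm_apply, Sum.elim_inl] at hl'
        rw [hl']
        exact Finset.mem_insert_self _ _
      · exact Finset.mem_insert_of_mem (Finset.mem_image_of_mem _ (Finset.mem_univ q))
    refine (Finset.card_le_card hsub).trans ((Finset.card_insert_le _ _).trans ?_)
    have h1 : (Finset.univ.image fun q : Fin k => e.symm (Sum.inr q)).card ≤ k := by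
      refine Finset.card_image_le.trans ?_
      simp
    omega
  · intro x hx
    have hb' := hball x (hbox hx)
    refine ⟨fun l => ?_, ?_⟩
    · rcases hcase l with ⟨t, rfl⟩ | ⟨q, rfl⟩
      · change |w (x, g x) _ - z _| ≤ ε
        rw [hwl]
        exact (hb'.2.2.2.1 t).2.le
      · change |w (x, g x) _ - z _| ≤ ε
        rw [hwr]
        exact (hb'.2.2.1 q).2.le
    · change Φ (w (x, g x)) = 0
      have := hb'.2.2.2.2
      rw [hf0] at this
      exact this

end Pool.Agent.H149.SZ
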