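import Pool.Agent.H149.SZ.F

set_option autoImplicit false

/-! Simple critical zeros and at most two smooth equations. -/

open Filter Topology MeasureTheory Set Complex
open scoped NNReal

namespace Pool.Agent.H149.SZ

/-- the tuples of simple critical zeros which nearly solve the equations, near the point `z` -/
def sols {r k : ℕ} (F : Fin r → ℂ → ℂ) (Φ : (Fin r → ℝ) → (Fin k → ℝ)) (z : Fin r → ℝ)
    (ε : ℝ) (s : Fin r → ℝ) (C T : ℝ) : Set (Fin r → ℝ) :=
  {γ : Fin r → ℝ | (∀ l, Simple (F l) (γ l)) ∧ (∀ l, |(γ l - s l) / T - z l| ≤ ε) ∧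
    ∀ p, |Φ (fun l => (γ l - s l) / T) p| ≤ C / (T * Real.log T)}

theorem equations : ∃ d : ℝ, 0 < d ∧ ∀ {n k : ℕ} (_ : k ≤ 2)
    (Φ : (Fin (n + 1 + k) → ℝ) → (Fin k → ℝ)) (z : Fin (n + 1 + k) → ℝ) (_ : ∀ l, 0 < z l)
    (_ : ContDiffAt ℝ 1 Φ z) (_ : Φ z = 0) (σ : Fin (k + 1) → Fin (n + 1 + k))
    (_ : Function.Injective σ)
    (_ : ∀ q : Fin (k + 1), (Matrix.of fun p p' =>
      fderiv ℝ Φ z (Pi.single (σ (q.succAbove p')) 1) p).det ≠ 0)
    (F : Fin (n + 1 + k) → ℂ → ℂ) (_ : ∀ l, H370.GoodL (F l)) (ε : ℝ) (_ : 0 < ε)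
    (_ : ∀ l, ε < z l), ∃ C c T₀ : ℝ, 0 < c ∧ ∀ T : ℝ, T₀ ≤ T →
      ∀ s : Fin (n + 1 + k) → ℝ, (∀ i, 0 ≤ s i ∧ s i ≤ T ^ (1 + d)) →
      (sols F Φ z ε s C T).Finite ∧
      (c * (T * Real.log T)) ^ (n + 1) ≤ (sols F Φ z ε s C T).ncard := by
  obtain ⟨d, hd, hmain⟩ := main
  refine ⟨d, hd, fun {n k} hk Φ z hz hΦ hΦz σ hσ hdet F hF ε hε hεz => ?_⟩
  obtain ⟨K, t, ht, hLip⟩ := hΦ.exists_lipschitzOnWith
  obtain ⟨ρ, hρ, hball⟩ := Metric.mem_nhds_iff.1 ht
  set ε' : ℝ := min (ε / 2) (ρ / 4) with hε'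
  have hε'0 : 0 < ε' := by rw [hε']; positivity
  have hε'1 : ε' ≤ ε / 2 := min_le_left _ _
  have hε'2 : ε' ≤ ρ / 4 := min_le_right _ _
  obtain ⟨Y, hY1, hY3, hY⟩ := solved hk Φ z hz hΦ hΦz σ hσ hdet ε' hε'0
  obtain ⟨C, c, T₀, hc, h⟩ := hmain Y hY1 hY3 F hF
  obtain ⟨zm, hzm0, hzm⟩ := exists_pos_le_all (fun l => z l - ε) (fun l => sub_pos.2 (hεz l))
  set C1 : ℝ := |C| with hC1
  have hC10 : 0 ≤ C1 := abs_nonneg C
  refine ⟨(K + 1) * C1, c, max (max T₀ 3) (max (C1 / ε') (2 / zm)), hc, fun T hT s hs => ?_⟩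
  have hT0 : T₀ ≤ T := ((le_max_left _ _).trans (le_max_left _ _)).trans hT
  have hT3 : 3 ≤ T := ((le_max_right _ _).trans (le_max_left _ _)).trans hT
  have hT4 : C1 / ε' ≤ T := ((le_max_left _ _).trans (le_max_right _ _)).trans hT
  have hT5 : 2 / zm ≤ T := ((le_max_right _ _).trans (le_max_right _ _)).trans hT
  have hTpos : 0 < T := by linarith
  have hlog1 : 1 ≤ Real.log T := by
    rw [Real.le_log_iff_exp_le hTpos]
    have := Real.exp_one_lt_d9
    linarith
  have hlog : 0 < Real.log T := by linarith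
  obtain ⟨hfin, hcount⟩ := h T hT0 s hs
  -- the small error
  have herr : C1 / (T * Real.log T) ≤ ε' := by
    rw [div_le_iff₀ (by positivity)]
    rw [div_le_iff₀ hε'0] at hT4
    calc C1 ≤ T * ε' := hT4
      _ ≤ ε' * (T * Real.log T) := by
          have : T * ε' * 1 ≤ T * ε' * Real.log T :=
            mul_le_mul_of_nonneg_left hlog1 (by positivity)
          linarith
  have hsub : tuples F Y.a Y.b Y.psi s C T ⊆ sols F Φ z ε s ((K + 1) * C1) T := by
    rintro γ ⟨hγ, x, hx, hγx⟩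
    obtain ⟨hY4, hY5⟩ := hY x hx
    have h1 : ∀ l, |(γ l - s l) / T - Y.psi l x| ≤ C1 / (T * Real.log T) := by
      intro l
      have e : (γ l - s l) / T - Y.psi l x = (γ l - (T * Y.psi l x + s l)) / T := by
        field_simp
        ring
      rw [e, abs_div, abs_of_pos hTpos, div_le_div_iff₀ hTpos (by positivity)]
      have h2 := hγx l
      have h3 : C / Real.log T ≤ C1 / Real.log T := div_le_div_of_nonneg_right (le_abs_self C) hlog.le
      have h4 := h2.trans h3
      rw [le_div_iff₀ hlog] at h4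
      calc |γ l - (T * Y.psi l x + s l)| * (T * Real.log T)
          = |γ l - (T * Y.psi l x + s l)| * Real.log T * T := by ring
        _ ≤ C1 * T := mul_le_mul_of_nonneg_right h4 hTpos.le
    have h2 : ∀ l, |(γ l - s l) / T - z l| ≤ 2 * ε' := by
      intro l
      have h3 : |(γ l - s l) / T - z l| ≤ |(γ l - s l) / T - Y.psi l x| + |Y.psi l x - z l| :=
        abs_sub_le _ _ _
      have h4 := h1 l
      have h5 := hY4 l
      linarith
    refine ⟨hγ, fun l => (h2 l).trans (by linarith), fun p => ?_⟩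
    have hm1 : (fun l => (γ l - s l) / T) ∈ t := by
      refine hball ?_
      rw [Metric.mem_ball]
      refine lt_of_le_of_lt ((dist_pi_le_iff (by positivity)).2 fun l => ?_)
        (show ρ / 2 < ρ by linarith)
      rw [Real.dist_eq]
      exact (h2 l).trans (by linarith)
    have hm2 : (fun l => Y.psi l x) ∈ t := by
      refine hball ?_
      rw [Metric.mem_ball]
      refine lt_of_le_of_lt ((dist_pi_le_iff (by positivity)).2 fun l => ?_)
        (show ρ / 2 < ρ by linarith)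
      rw [Real.dist_eq]
      exact (hY4 l).trans (by linarith)
    have h3 := hLip.dist_le_mul _ hm1 _ hm2
    rw [hY5] at h3
    have h4 : dist (fun l => (γ l - s l) / T) (fun l => Y.psi l x) ≤ C1 / (T * Real.log T) := by
      rw [dist_pi_le_iff (by positivity)]
      intro l
      rw [Real.dist_eq]
      exact h1 l
    have h5 : |Φ (fun l => (γ l - s l) / T) p| ≤ dist (Φ fun l => (γ l - s l) / T) 0 := by
      have := dist_le_pi_dist (Φ fun l => (γ l - s l) / T) 0 p
      rw [Real.dist_eq] at this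
      simpa using this
    calc |Φ (fun l => (γ l - s l) / T) p| ≤ K * (C1 / (T * Real.log T)) :=
          h5.trans (h3.trans (mul_le_mul_of_nonneg_left h4 K.coe_nonneg))
      _ ≤ (K + 1) * C1 / (T * Real.log T) := by
          rw [← mul_div_assoc]
          apply div_le_div_of_nonneg_right _ (by positivity)
          nlinarith
  have hfin2 : (sols F Φ z ε s ((K + 1) * C1) T).Finite := by
    refine (Set.Finite.pi' (fun l => simple_finite (hF l) (T * (z l + ε) + s l))).subset ?_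
    rintro γ ⟨hγ, h1, -⟩ l
    have h2 := abs_le.1 (h1 l)
    have h3 : z l - ε ≤ (γ l - s l) / T := by linarith [h2.1]
    have h4 : (γ l - s l) / T ≤ z l + ε := by linarith [h2.2]
    rw [le_div_iff₀ hTpos] at h3
    rw [div_le_iff₀ hTpos] at h4
    have h5 : zm * T ≤ (z l - ε) * T := mul_le_mul_of_nonneg_right (hzm l) hTpos.le
    rw [div_le_iff₀ hzm0] at hT5
    exact ⟨by linarith [(hs l).1], by linarith, hγ l⟩
  refine ⟨hfin2, hcount.trans ?_⟩
  exact_mod_cast Set.ncard_le_ncard hsub hfin2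

end Pool.Agent.H149.SZ
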